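import Pool.Agent.TH293.E5.Main

/-!
The numbers `π + e^α`, `π e^α`, `e^(e^α)` and `b_i^(e^α)` for several positive reals `b_i`.
-/

set_option autoImplicit false

namespace Pool.Agent.TH293.E5

open Pool.Agent.H301R2.SSE Pool.Agent.H301R2.Nine Pool.Agent.H340R2

/-- at most one of the numbers is algebraic -/
def AtMostOneAlgebraic {ι : Type} (v : ι → ℂ) : Prop :=
  ∀ i j, IsAlgebraic ℚ (v i) → IsAlgebraic ℚ (v j) → i = j

/-- the numbers -/
noncomputable def numbers {n : ℕ} (b : Fin n → ℝ) (α : ℂ) : Fin 3 ⊕ Fin n → ℂ :=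
  Sum.elim ![(Real.pi : ℂ) + Complex.exp α, Real.pi * Complex.exp α, Complex.exp (Complex.exp α)]
    (fun i => (b i : ℂ) ^ Complex.exp α)

theorem cpow_eq {b : ℝ} (hb : 0 < b) (x : ℂ) :
    (b : ℂ) ^ x = Complex.exp ((Real.log b : ℝ) * x) := by
  have h : (b : ℂ) ≠ 0 := by exact_mod_cast hb.ne'
  rw [Complex.cpow_def_of_ne_zero h, Complex.ofReal_log hb.le]

/-- exceptions for a pair of conditions -/
def Ex (k : ℕ) (P Q : ℂ → Prop) : Prop :=
  ∃ S : Finset ℂ, S.card ≤ k ∧ ∀ α, IsAlgebraic ℚ α → α ≠ 0 → α ∉ S → P α → ¬ Q α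

theorem irr_ne {ℓ : ℝ} (h : Irrational ℓ) : (ℓ : ℂ) ≠ 0 := by
  have := h.ne_zero
  exact_mod_cast this

theorem irr_rat {ℓ : ℝ} (h : Irrational ℓ) (q : ℚ) : (q : ℂ) ≠ (ℓ : ℂ) := by
  intro hq
  apply h
  refine ⟨q, ?_⟩
  exact_mod_cast hq

theorem not_AC {x : ℂ} {ℓ : ℝ} (hℓ : ℓ ≠ 0) (hℓa : IsAlgebraic ℚ (ℓ : ℂ))
    (h1 : IsAlgebraic ℚ ((Real.pi : ℂ) + x)) (h2 : IsAlgebraic ℚ (Complex.exp (ℓ * x))) : False := by
  have hℓ' : (ℓ : ℂ) ≠ 0 := by exact_mod_cast hℓ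
  have h3 : (ℓ : ℂ) * ((Real.pi : ℂ) + x) ∈ LB := by
    rw [mul_add]
    exact LB.add_mem (LB_mul hℓa pi_mem) (LB_log h2)
  have h4 := LB_alg h3 (hℓa.mul h1)
  have h5 := (mul_eq_zero.1 h4).resolve_left hℓ'
  have h6 : (ℓ : ℂ) * x = ((-(ℓ * Real.pi) : ℝ) : ℂ) := by
    push_cast
    linear_combination (ℓ : ℂ) * h5
  rw [h6, ← Complex.ofReal_exp] at h2
  have h7 := pi_log (t := -(ℓ * Real.pi)) (neg_ne_zero.2 (mul_ne_zero hℓ Real.pi_ne_zero)) (ofC h2)
    isAlgebraic_zero hℓa isAlgebraic_one (by push_cast; ring)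
  exact one_ne_zero h7.2.2

theorem ex_one_log {ℓ : ℝ} (hℓ : Irrational ℓ) :
    Ex 2 (fun α => IsAlgebraic ℚ ((Real.pi : ℂ) + Complex.exp α) ∨
        IsAlgebraic ℚ (Complex.exp (Complex.exp α)))
      (fun α => IsAlgebraic ℚ (Complex.exp ((ℓ : ℂ) * Complex.exp α))) := by
  by_cases hρ : IsAlgebraic ℚ (ℓ : ℂ)
  · refine ⟨∅, by simp, fun α hα h0 _ h1 h2 => ?_⟩
    rcases h1 with h1 | h1
    · exact not_AC hℓ.ne_zero hρ h1 h2
    · exact gelfond (Complex.exp_ne_zero α) hρ (irr_rat hℓ) h1 h2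
  · obtain ⟨S, h1, h2⟩ := at_most_two (ind_of_tr hρ)
    refine ⟨S, h1, fun α hα _ hS h3 h4 => hS (h2 α hα ?_ (Lt_log h4))⟩
    rcases h3 with h3 | h3
    · exact mem_of_A h3
    · exact mem_of_D h3

theorem ex_pi_log {ℓ : ℝ} (hℓ : ℓ ≠ 0) :
    Ex 2 (fun α => IsAlgebraic ℚ ((Real.pi : ℂ) * Complex.exp α))
      (fun α => IsAlgebraic ℚ (Complex.exp ((ℓ : ℂ) * Complex.exp α))) := by
  have hℓ' : (ℓ : ℂ) ≠ 0 := by exact_mod_cast hℓ
  rcases ind_pi_or (t := (ℓ : ℂ)) with h | ⟨ρ, hρ, hρe⟩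
  · obtain ⟨S, h1, h2⟩ := at_most_two h
    exact ⟨S, h1, fun α hα _ hS h3 h4 => hS (h2 α hα (Lt_alg h3) (Lt_log h4))⟩
  · refine ⟨∅, by simp, fun α _ _ _ h3 h4 => ?_⟩
    rw [hρe, mul_assoc] at h4
    refine tr_exp (hρ.mul h3) ?_ h4
    refine mul_ne_zero ?_ (mul_ne_zero pi_ne (Complex.exp_ne_zero α))
    rintro rfl
    rw [zero_mul] at hρe
    exact hℓ' hρe

/-- two real numbers with irrational quotient -/
theorem ind_or {ℓ m : ℝ} (h : Irrational (ℓ / m)) :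
    Ind (ℓ : ℂ) (m : ℂ) ∨ ∃ ρ : ℂ, IsAlgebraic ℚ ρ ∧ (∀ q : ℚ, (q : ℂ) ≠ ρ) ∧ (ℓ : ℂ) = ρ * m := by
  have hm : m ≠ 0 := by
    rintro rfl
    rw [div_zero] at h
    exact h.ne_zero rfl
  have hm' : (m : ℂ) ≠ 0 := by exact_mod_cast hm
  by_cases h1 : IsAlgebraic ℚ (((ℓ / m : ℝ)) : ℂ)
  · right
    refine ⟨_, h1, irr_rat h, ?_⟩
    push_cast
    field_simp
  · left
    intro a b ha hb hab
    have ha0 : a = 0 := by
      by_contra ha0
      apply h1
      have : ((ℓ / m : ℝ) : ℂ) = -b * a⁻¹ := by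
        push_cast
        field_simp
        linear_combination hab
      rw [this]
      exact hb.neg.mul ha.inv
    subst ha0
    refine ⟨rfl, ?_⟩
    have : b * (m : ℂ) = 0 := by linear_combination hab
    exact (mul_eq_zero.1 this).resolve_right hm'

theorem m_ne {ℓ m : ℝ} (h : Irrational (ℓ / m)) : (m : ℂ) ≠ 0 := by
  have hm : m ≠ 0 := by
    rintro rfl
    rw [div_zero] at h
    exact h.ne_zero rfl
  exact_mod_cast hm

theorem ex_log_log {ℓ m : ℝ} (h : Irrational (ℓ / m)) :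
    Ex 2 (fun α => IsAlgebraic ℚ (Complex.exp ((ℓ : ℂ) * Complex.exp α)))
      (fun α => IsAlgebraic ℚ (Complex.exp ((m : ℂ) * Complex.exp α))) := by
  rcases ind_or h with h1 | ⟨ρ, hρ, hρq, hρe⟩
  · obtain ⟨S, h2, h3⟩ := at_most_two h1
    exact ⟨S, h2, fun α hα _ hS h4 h5 => hS (h3 α hα (Lt_log h4) (Lt_log h5))⟩
  · refine ⟨∅, by simp, fun α _ _ _ h3 h4 => ?_⟩
    rw [hρe, mul_assoc] at h3
    exact gelfond (mul_ne_zero (m_ne h) (Complex.exp_ne_zero α)) hρ hρq h4 h3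

/-! ### logarithms of algebraic numbers -/

theorem ex_of_one {s t : ℂ} (hst : Ind s t) (hs : s ∈ Lt) (ht : t ∈ Lt) {P Q : ℂ → Prop}
    (hP : ∀ α, P α → s * Complex.exp α ∈ Lt) (hQ : ∀ α, Q α → t * Complex.exp α ∈ Lt) :
    Ex 1 P Q := by
  obtain ⟨a, ha⟩ := at_most_one hst hs ht
  refine ⟨{a}, by simp, fun α hα h0 h1 h2 h3 => h1 ?_⟩
  rw [Finset.mem_singleton]
  exact ha α hα h0 (hP α h2) (hQ α h3)

theorem ind_one_log {ℓ : ℝ} (hℓ : ℓ ≠ 0) (h : IsAlgebraic ℚ (Real.exp ℓ)) : Ind 1 (ℓ : ℂ) := by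
  intro a b ha hb hab
  have := pi_log hℓ h ha isAlgebraic_zero hb (by linear_combination hab)
  exact ⟨this.1, this.2.2⟩

theorem ind_pi_log {ℓ : ℝ} (hℓ : ℓ ≠ 0) (h : IsAlgebraic ℚ (Real.exp ℓ)) :
    Ind (Real.pi : ℂ) (ℓ : ℂ) := by
  intro a b ha hb hab
  have := pi_log hℓ h isAlgebraic_zero ha hb (by linear_combination hab)
  exact ⟨this.2.1, this.2.2⟩

theorem ind_log_log {ℓ m : ℝ} (h : Irrational (ℓ / m)) (h1 : IsAlgebraic ℚ (Real.exp ℓ))
    (h2 : IsAlgebraic ℚ (Real.exp m)) : Ind (ℓ : ℂ) (m : ℂ) := by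
  rcases ind_or h with h3 | ⟨ρ, hρ, hρq, hρe⟩
  · exact h3
  · exfalso
    refine gelfond (m_ne h) hρ hρq ?_ ?_
    · rw [← Complex.ofReal_exp]
      exact toC h2
    · rw [← hρe, ← Complex.ofReal_exp]
      exact toC h1

theorem log_Lt {ℓ : ℝ} (h : IsAlgebraic ℚ (Real.exp ℓ)) : (ℓ : ℂ) ∈ Lt := LB_Lt (real_mem h)

/-! ### assembly -/

theorem assemble (k : ℕ) {n : ℕ} (b : Fin n → ℝ) (hb : ∀ i, 0 < b i)
    (h2 : ∀ i, Ex k (fun α => IsAlgebraic ℚ ((Real.pi : ℂ) + Complex.exp α) ∨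
        IsAlgebraic ℚ (Complex.exp (Complex.exp α)))
      (fun α => IsAlgebraic ℚ (Complex.exp ((Real.log (b i) : ℂ) * Complex.exp α))))
    (h3 : ∀ i, Ex k (fun α => IsAlgebraic ℚ ((Real.pi : ℂ) * Complex.exp α))
      (fun α => IsAlgebraic ℚ (Complex.exp ((Real.log (b i) : ℂ) * Complex.exp α))))
    (h4 : ∀ i j, i < j → Ex k
      (fun α => IsAlgebraic ℚ (Complex.exp ((Real.log (b i) : ℂ) * Complex.exp α)))
      (fun α => IsAlgebraic ℚ (Complex.exp ((Real.log (b j) : ℂ) * Complex.exp α)))) :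
    ∃ S : Finset ℂ, S.card ≤ 1 + k * n + k * n + k * n.choose 2 ∧
      ∀ α, IsAlgebraic ℚ α → α ≠ 0 → α ∉ S → AtMostOneAlgebraic (numbers b α) := by
  classical
  obtain ⟨a, ha⟩ := at_most_one ind_one_pi Lt_one pi_Lt
  choose S2 hc2 hS2 using h2
  choose S3 hc3 hS3 using h3
  have h4' : ∀ i j : Fin n, ∃ S : Finset ℂ, S.card ≤ k ∧ (i < j → ∀ α, IsAlgebraic ℚ α → α ≠ 0 →
      α ∉ S → IsAlgebraic ℚ (Complex.exp ((Real.log (b i) : ℂ) * Complex.exp α)) →
      ¬ IsAlgebraic ℚ (Complex.exp ((Real.log (b j) : ℂ) * Complex.exp α))) := by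
    intro i j
    by_cases hij : i < j
    · obtain ⟨S, h1, h2⟩ := h4 i j hij
      exact ⟨S, h1, fun _ => h2⟩
    · exact ⟨∅, by simp, fun h => absurd h hij⟩
  choose S4 hc4 hS4 using h4'
  refine ⟨{a} ∪ Finset.univ.biUnion S2 ∪ Finset.univ.biUnion S3 ∪
    Finset.univ.biUnion (fun j => (Finset.Iio j).biUnion fun i => S4 i j), ?_, ?_⟩
  · have e1 : (Finset.univ.biUnion S2).card ≤ k * n := by
      refine Finset.card_biUnion_le.trans ((Finset.sum_le_sum fun i _ => hc2 i).trans ?_)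
      rw [Finset.sum_const, Finset.card_univ, Fintype.card_fin, smul_eq_mul, mul_comm]
    have e2 : (Finset.univ.biUnion S3).card ≤ k * n := by
      refine Finset.card_biUnion_le.trans ((Finset.sum_le_sum fun i _ => hc3 i).trans ?_)
      rw [Finset.sum_const, Finset.card_univ, Fintype.card_fin, smul_eq_mul, mul_comm]
    have e3 : (Finset.univ.biUnion (fun j => (Finset.Iio j).biUnion fun i => S4 i j)).card ≤
        k * n.choose 2 := by
      calc (Finset.univ.biUnion fun j => (Finset.Iio j).biUnion fun i => S4 i j).card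
          ≤ ∑ j : Fin n, ∑ i ∈ Finset.Iio j, (S4 i j).card :=
            Finset.card_biUnion_le.trans (Finset.sum_le_sum fun j _ => Finset.card_biUnion_le)
        _ ≤ ∑ j : Fin n, ∑ i ∈ Finset.Iio j, k :=
            Finset.sum_le_sum fun j _ => Finset.sum_le_sum fun i _ => hc4 i j
        _ = ∑ j : Fin n, (j : ℕ) * k := by
            refine Finset.sum_congr rfl fun j _ => ?_
            rw [Finset.sum_const, Fin.card_Iio, smul_eq_mul]
        _ = k * n.choose 2 := by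
            rw [Fin.sum_univ_eq_sum_range (fun j => j * k), ← Finset.sum_mul,
              Finset.sum_range_id, Nat.choose_two_right, mul_comm]
    have f1 := Finset.card_union_le ({a} ∪ Finset.univ.biUnion S2 ∪ Finset.univ.biUnion S3)
      (Finset.univ.biUnion (fun j => (Finset.Iio j).biUnion fun i => S4 i j))
    have f2 := Finset.card_union_le ({a} ∪ Finset.univ.biUnion S2) (Finset.univ.biUnion S3)
    have f3 := Finset.card_union_le {a} (Finset.univ.biUnion S2)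
    rw [Finset.card_singleton] at f3
    omega
  · intro α hα h0 hαS
    simp only [Finset.mem_union, Finset.mem_singleton, Finset.mem_biUnion, Finset.mem_univ,
      true_and, Finset.mem_Iio, not_or, not_exists, not_and] at hαS
    obtain ⟨⟨⟨hαa, hα2⟩, hα3⟩, hα4⟩ := hαS
    -- the pairs
    have pAB := fun h1 h2 => not_AB (x := Complex.exp α) h1 h2
    have pAD := fun h1 h2 => not_AD (x := Complex.exp α) h1 h2
    have pBD : IsAlgebraic ℚ ((Real.pi : ℂ) * Complex.exp α) →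
        IsAlgebraic ℚ (Complex.exp (Complex.exp α)) → False := fun h1 h2 =>
      hαa (ha α hα h0 (mem_of_D h2) (Lt_alg h1))
    have pAC : ∀ i, IsAlgebraic ℚ ((Real.pi : ℂ) + Complex.exp α) →
        IsAlgebraic ℚ ((b i : ℂ) ^ Complex.exp α) → False := fun i h1 h2 => by
      rw [cpow_eq (hb i)] at h2
      exact hS2 i α hα h0 (hα2 i) (Or.inl h1) h2
    have pDC : ∀ i, IsAlgebraic ℚ (Complex.exp (Complex.exp α)) →
        IsAlgebraic ℚ ((b i : ℂ) ^ Complex.exp α) → False := fun i h1 h2 => by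
      rw [cpow_eq (hb i)] at h2
      exact hS2 i α hα h0 (hα2 i) (Or.inr h1) h2
    have pBC : ∀ i, IsAlgebraic ℚ ((Real.pi : ℂ) * Complex.exp α) →
        IsAlgebraic ℚ ((b i : ℂ) ^ Complex.exp α) → False := fun i h1 h2 => by
      rw [cpow_eq (hb i)] at h2
      exact hS3 i α hα h0 (hα3 i) h1 h2
    have pCC : ∀ i j, i < j → IsAlgebraic ℚ ((b i : ℂ) ^ Complex.exp α) →
        IsAlgebraic ℚ ((b j : ℂ) ^ Complex.exp α) → False := fun i j hij h1 h2 => by
      rw [cpow_eq (hb i)] at h1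
      rw [cpow_eq (hb j)] at h2
      exact hS4 i j hij α hα h0 (hα4 j i hij) h1 h2
    rintro (i | i) (j | j) hi hj
    · fin_cases i <;> fin_cases j <;> simp [numbers] at hi hj ⊢
      · exact pAB hi hj
      · exact pAD hi hj
      · exact pAB hj hi
      · exact pBD hi hj
      · exact pAD hj hi
      · exact pBD hj hi
    · exfalso
      fin_cases i <;> simp [numbers] at hi hj
      · exact pAC j hi hj
      · exact pBC j hi hj
      · exact pDC j hi hj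
    · exfalso
      fin_cases j <;> simp [numbers] at hi hj
      · exact pAC i hj hi
      · exact pBC i hj hi
      · exact pDC i hj hi
    · rcases lt_trichotomy i j with h | h | h
      · exact (pCC i j h hi hj).elim
      · rw [h]
      · exact (pCC j i h hj hi).elim

theorem gen_real {n : ℕ} (b : Fin n → ℝ) (hb : ∀ i, 0 < b i)
    (h1 : ∀ i, Irrational (Real.log (b i)))
    (h2 : ∀ i j, i ≠ j → Irrational (Real.log (b i) / Real.log (b j))) :
    ∃ S : Finset ℂ, S.card ≤ n ^ 2 + 3 * n + 1 ∧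
      ∀ α, IsAlgebraic ℚ α → α ≠ 0 → α ∉ S → AtMostOneAlgebraic (numbers b α) := by
  obtain ⟨S, h3, h4⟩ := assemble 2 b hb (fun i => ex_one_log (h1 i))
    (fun i => ex_pi_log (h1 i).ne_zero) (fun i j hij => ex_log_log (h2 i j hij.ne))
  refine ⟨S, h3.trans ?_, h4⟩
  have e : n.choose 2 * 2 = n * (n - 1) := by
    rw [Nat.choose_two_right]
    exact Nat.div_mul_cancel (Nat.even_mul_pred_self n).two_dvd
  rcases n with _ | m
  · simp
  · rw [Nat.add_sub_cancel] at e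
    nlinarith

theorem gen_alg {n : ℕ} (b : Fin n → ℝ) (hb : ∀ i, 0 < b i) (hb1 : ∀ i, b i ≠ 1)
    (hba : ∀ i, IsAlgebraic ℚ (b i))
    (h2 : ∀ i j, i ≠ j → Irrational (Real.log (b i) / Real.log (b j))) :
    ∃ S : Finset ℂ, S.card ≤ (n + 2).choose 2 ∧
      ∀ α, IsAlgebraic ℚ α → α ≠ 0 → α ∉ S → AtMostOneAlgebraic (numbers b α) := by
  have h5 : ∀ i, IsAlgebraic ℚ (Real.exp (Real.log (b i))) := fun i => by
    rw [Real.exp_log (hb i)]
    exact hba i
  have h6 : ∀ i, Real.log (b i) ≠ 0 := fun i => Real.log_ne_zero_of_pos_of_ne_one (hb i) (hb1 i)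
  obtain ⟨S, h3, h4⟩ := assemble 1 b hb
    (fun i => ex_of_one (ind_one_log (h6 i) (h5 i)) Lt_one (log_Lt (h5 i)) (fun α h => by
      rcases h with h | h
      · exact mem_of_A h
      · exact mem_of_D h) (fun α h => Lt_log h))
    (fun i => ex_of_one (ind_pi_log (h6 i) (h5 i)) pi_Lt (log_Lt (h5 i)) (fun α h => Lt_alg h)
      (fun α h => Lt_log h))
    (fun i j hij => ex_of_one (ind_log_log (h2 i j hij.ne) (h5 i) (h5 j)) (log_Lt (h5 i))
      (log_Lt (h5 j)) (fun α h => Lt_log h) (fun α h => Lt_log h))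
  refine ⟨S, h3.trans ?_, h4⟩
  have e : (n + 2).choose 2 = 1 + 1 * n + 1 * n + 1 * n.choose 2 := by
    rw [Nat.choose_succ_succ (n + 1) 1, Nat.choose_succ_succ n 1, Nat.choose_one_right,
      Nat.choose_one_right]
    ring
  rw [e]

end Pool.Agent.TH293.E5
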