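import Pool.Agent.H301R2.SSE.Nine

/-!
Two numbers `s, t`, linearly independent over the algebraic numbers: there are at most two algebraic
numbers `α` for which both `s e^α` and `t e^α` are linear forms in `1` and logarithms.
-/

set_option autoImplicit false

namespace Pool.Agent.TH293.E5

open Pool.Agent.H301R2.SSE Pool.Agent.H301R2.Nine

/-- linear independence of two complex numbers over the algebraic numbers -/
def Ind (s t : ℂ) : Prop :=
  ∀ a b : ℂ, IsAlgebraic ℚ a → IsAlgebraic ℚ b → a * s + b * t = 0 → a = 0 ∧ b = 0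

theorem three {s t : ℂ} (hst : Ind s t) (α β γ : ℂ) (hα : IsAlgebraic ℚ α) (hβ : IsAlgebraic ℚ β)
    (hγ : IsAlgebraic ℚ γ) (hab : α ≠ β) (hac : α ≠ γ) (hbc : β ≠ γ)
    (h1 : s * Complex.exp α ∈ Lt) (h2 : s * Complex.exp β ∈ Lt) (h3 : s * Complex.exp γ ∈ Lt)
    (h4 : t * Complex.exp α ∈ Lt) (h5 : t * Complex.exp β ∈ Lt) (h6 : t * Complex.exp γ ∈ Lt) :
    False := by
  refine six' s t (Complex.exp α) (Complex.exp β) (Complex.exp γ) hst ?_ h1 h2 h3 h4 h5 h6
  intro a b c ha hb hc h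
  have := Pool.Agent.H340R2.LW.lindemann_weierstrass (Finset.univ : Finset (Fin 3)) ![α, β, γ]
    ![a, b, c]
    (by
      intro i _
      fin_cases i
      · exact hα
      · exact hβ
      · exact hγ)
    (by
      intro i _
      fin_cases i
      · exact ha
      · exact hb
      · exact hc)
    (by
      intro i _ j _ hij
      fin_cases i <;> fin_cases j <;> simp_all [eq_comm])
    (by simp [Fin.sum_univ_three, h])
  exact ⟨this 0 (Finset.mem_univ _), this 1 (Finset.mem_univ _), this 2 (Finset.mem_univ _)⟩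

theorem two_of {P : ℂ → Prop}
    (h : ∀ a b c : ℂ, a ≠ b → a ≠ c → b ≠ c → P a → P b → P c → False) :
    ∃ S : Finset ℂ, S.card ≤ 2 ∧ ∀ a, P a → a ∈ S := by
  classical
  by_cases h1 : ∃ a, P a
  · obtain ⟨a, ha⟩ := h1
    by_cases h2 : ∃ b, b ≠ a ∧ P b
    · obtain ⟨b, hba, hb⟩ := h2
      refine ⟨{a, b}, Finset.card_le_two, fun c hc => ?_⟩
      by_contra hcon
      rw [Finset.mem_insert, Finset.mem_singleton] at hcon
      push Not at hcon
      exact h a b c hba.symm (Ne.symm hcon.1) (Ne.symm hcon.2) ha hb hc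
    · push Not at h2
      refine ⟨{a}, by simp, fun c hc => ?_⟩
      rw [Finset.mem_singleton]
      by_contra hcon
      exact h2 c hcon hc
  · push Not at h1
    exact ⟨∅, by simp, fun c hc => absurd hc (h1 c)⟩

theorem one_of {P : ℂ → Prop} (h : ∀ a b : ℂ, a ≠ b → P a → P b → False) :
    ∃ a : ℂ, ∀ b, P b → b = a := by
  by_cases h1 : ∃ a, P a
  · obtain ⟨a, ha⟩ := h1
    refine ⟨a, fun b hb => ?_⟩
    by_contra hcon
    exact h b a hcon hb ha
  · push Not at h1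
    exact ⟨0, fun b hb => absurd hb (h1 b)⟩

theorem at_most_two {s t : ℂ} (hst : Ind s t) :
    ∃ S : Finset ℂ, S.card ≤ 2 ∧ ∀ α, IsAlgebraic ℚ α → s * Complex.exp α ∈ Lt →
      t * Complex.exp α ∈ Lt → α ∈ S := by
  obtain ⟨S, hS, h⟩ := two_of (P := fun α => IsAlgebraic ℚ α ∧ s * Complex.exp α ∈ Lt ∧
      t * Complex.exp α ∈ Lt) (by
    rintro a b c hab hac hbc ⟨ha, ha1, ha2⟩ ⟨hb, hb1, hb2⟩ ⟨hc, hc1, hc2⟩
    exact three hst a b c ha hb hc hab hac hbc ha1 hb1 hc1 ha2 hb2 hc2)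
  exact ⟨S, hS, fun α h1 h2 h3 => h α ⟨h1, h2, h3⟩⟩

theorem at_most_one {s t : ℂ} (hst : Ind s t) (hs : s ∈ Lt) (ht : t ∈ Lt) :
    ∃ a : ℂ, ∀ α, IsAlgebraic ℚ α → α ≠ 0 → s * Complex.exp α ∈ Lt →
      t * Complex.exp α ∈ Lt → α = a := by
  obtain ⟨a, h⟩ := one_of (P := fun α => IsAlgebraic ℚ α ∧ α ≠ 0 ∧ s * Complex.exp α ∈ Lt ∧
      t * Complex.exp α ∈ Lt) (by
    rintro a b hab ⟨ha, ha0, ha1, ha2⟩ ⟨hb, hb0, hb1, hb2⟩
    refine three hst a b 0 ha hb isAlgebraic_zero hab ha0 hb0 ha1 hb1 ?_ ha2 hb2 ?_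
    · rw [Complex.exp_zero, mul_one]
      exact hs
    · rw [Complex.exp_zero, mul_one]
      exact ht)
  exact ⟨a, fun α h1 h2 h3 h4 => h α ⟨h1, h2, h3, h4⟩⟩

/-! ### complex conjugation -/

theorem alg_conj {z : ℂ} (h : IsAlgebraic ℚ z) : IsAlgebraic ℚ ((starRingEnd ℂ) z) := by
  have := h.algHom ((Complex.conjAe.restrictScalars ℚ).toAlgHom)
  exact this

theorem Lt_conj {z : ℂ} (hz : z ∈ Lt) : (starRingEnd ℂ) z ∈ Lt := by
  refine Submodule.span_induction (p := fun z _ => (starRingEnd ℂ) z ∈ Lt) ?_ ?_ ?_ ?_ hz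
  · rintro z (hz | hz)
    · rw [Set.mem_singleton_iff] at hz
      subst hz
      rw [map_one]
      exact Lt_one
    · apply Lt_log
      rw [Complex.exp_conj]
      exact alg_conj hz
  · rw [map_zero]
    exact Submodule.zero_mem _
  · intro x y _ _ hx hy
    rw [map_add]
    exact Submodule.add_mem _ hx hy
  · intro a x _ hx
    have h1 : a • x = (a : ℂ) * x := by rw [Algebra.smul_def]; rfl
    rw [h1, map_mul]
    exact Lt_mul (alg_conj (mem_QB.1 a.2)) hx

theorem real_exception {s t : ℝ} (hst : Ind s t) (hs : (s : ℂ) ∈ Lt) (ht : (t : ℂ) ∈ Lt) :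
    ∃ a : ℝ, ∀ α : ℂ, IsAlgebraic ℚ α → α ≠ 0 → (s : ℂ) * Complex.exp α ∈ Lt →
      (t : ℂ) * Complex.exp α ∈ Lt → α = a := by
  obtain ⟨a, ha⟩ := at_most_one hst hs ht
  refine ⟨a.re, fun α h1 h2 h3 h4 => ?_⟩
  have e1 := ha α h1 h2 h3 h4
  have e2 := ha ((starRingEnd ℂ) α) (alg_conj h1) (by
    intro h0
    exact h2 ((map_eq_zero _).1 h0)) (by
    have := Lt_conj h3
    rwa [map_mul, Complex.conj_ofReal, ← Complex.exp_conj] at this) (by
    have := Lt_conj h4
    rwa [map_mul, Complex.conj_ofReal, ← Complex.exp_conj] at this)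
  have e3 : (starRingEnd ℂ) α = α := e2.trans e1.symm
  rw [← e1]
  exact (Complex.conj_eq_iff_re.1 e3).symm

end Pool.Agent.TH293.E5
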