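import Pool.Agent.TH293.E5.Core

/-!
The numbers `π + e^α`, `π e^α`, `π^(e^α)`, `e^(e^α)`.
-/

set_option autoImplicit false

namespace Pool.Agent.TH293.E5

open Pool.Agent.H301R2.SSE Pool.Agent.H301R2.Nine Pool.Agent.H340R2

theorem family {n : ℕ} (t : Fin n → ℂ) (ht : ∀ i j, i < j → Ind (t i) (t j)) :
    ∃ S : Finset ℂ, S.card ≤ n * (n - 1) ∧ ∀ α, IsAlgebraic ℚ α → α ∉ S →
      ∀ i j, i < j → t i * Complex.exp α ∈ Lt → t j * Complex.exp α ∉ Lt := by
  classical
  have h1 : ∀ i j : Fin n, ∃ S : Finset ℂ, S.card ≤ 2 ∧ (i < j → ∀ α, IsAlgebraic ℚ α →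
      t i * Complex.exp α ∈ Lt → t j * Complex.exp α ∈ Lt → α ∈ S) := by
    intro i j
    by_cases hij : i < j
    · obtain ⟨S, h1, h2⟩ := at_most_two (ht i j hij)
      exact ⟨S, h1, fun _ => h2⟩
    · exact ⟨∅, by simp, fun h => absurd h hij⟩
  choose S hS hS2 using h1
  refine ⟨Finset.univ.biUnion fun j => (Finset.Iio j).biUnion fun i => S i j, ?_, ?_⟩
  · calc (Finset.univ.biUnion fun j => (Finset.Iio j).biUnion fun i => S i j).card
        ≤ ∑ j : Fin n, ∑ i ∈ Finset.Iio j, (S i j).card :=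
          Finset.card_biUnion_le.trans (Finset.sum_le_sum fun j _ => Finset.card_biUnion_le)
      _ ≤ ∑ j : Fin n, ∑ i ∈ Finset.Iio j, 2 :=
          Finset.sum_le_sum fun j _ => Finset.sum_le_sum fun i _ => hS i j
      _ = ∑ j : Fin n, (j : ℕ) * 2 := by
          refine Finset.sum_congr rfl fun j _ => ?_
          rw [Finset.sum_const, Fin.card_Iio, smul_eq_mul]
      _ = n * (n - 1) := by
          rw [Fin.sum_univ_eq_sum_range (fun j => j * 2), ← Finset.sum_mul,
            Finset.sum_range_id_mul_two]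
  · intro α hα hαS i j hij h1 h2
    apply hαS
    rw [Finset.mem_biUnion]
    refine ⟨j, Finset.mem_univ _, ?_⟩
    rw [Finset.mem_biUnion]
    exact ⟨i, Finset.mem_Iio.2 hij, hS2 i j hij α hα h1 h2⟩

/-! ### numbers -/

theorem pi_tr : Transcendental ℚ (Real.pi : ℂ) := LW.transcendental_pi_complex

theorem pi_ne : (Real.pi : ℂ) ≠ 0 := by exact_mod_cast Real.pi_ne_zero

theorem pi_Lt : (Real.pi : ℂ) ∈ Lt := LB_Lt pi_mem

theorem ind_one_pi : Ind 1 (Real.pi : ℂ) := by
  intro a b ha hb h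
  have hb0 : b = 0 := by
    by_contra hb0
    apply pi_tr
    have : (Real.pi : ℂ) = -a * b⁻¹ := by
      field_simp
      linear_combination h
    rw [this]
    exact ha.neg.mul hb.inv
  subst hb0
  refine ⟨by linear_combination h, rfl⟩

theorem ind_of_tr {t : ℂ} (ht : Transcendental ℚ t) : Ind 1 t := by
  intro a b ha hb h
  have hb0 : b = 0 := by
    by_contra hb0
    apply ht
    have : t = -a * b⁻¹ := by
      field_simp
      linear_combination h
    rw [this]
    exact ha.neg.mul hb.inv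
  subst hb0
  refine ⟨by linear_combination h, rfl⟩

/-- the dichotomy for `π` and another nonzero number -/
theorem ind_pi_or {t : ℂ} : Ind (Real.pi : ℂ) t ∨ ∃ ρ : ℂ, IsAlgebraic ℚ ρ ∧ t = ρ * Real.pi := by
  by_cases h : ∃ ρ : ℂ, IsAlgebraic ℚ ρ ∧ t = ρ * Real.pi
  · exact Or.inr h
  · left
    push Not at h
    intro a b ha hb hab
    have hb0 : b = 0 := by
      by_contra hb0
      apply h (-a * b⁻¹) (ha.neg.mul hb.inv)
      field_simp
      linear_combination hab
    subst hb0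
    refine ⟨?_, rfl⟩
    have : a * (Real.pi : ℂ) = 0 := by linear_combination hab
    exact (mul_eq_zero.1 this).resolve_right pi_ne

theorem alg_sq {z : ℂ} (h : IsAlgebraic ℚ (z ^ 2)) : IsAlgebraic ℚ z :=
  IsAlgebraic.of_pow (by norm_num) h

theorem alg_two : IsAlgebraic ℚ (2 : ℂ) := by
  have := isAlgebraic_natCast (R := ℚ) (A := ℂ) 2
  simpa using this

/-- not both of `π + x`, `π x` -/
theorem not_AB {x : ℂ} (h1 : IsAlgebraic ℚ ((Real.pi : ℂ) + x))
    (h2 : IsAlgebraic ℚ ((Real.pi : ℂ) * x)) : False := by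
  have h3 : IsAlgebraic ℚ (((Real.pi : ℂ) - x) ^ 2) := by
    have e : ((Real.pi : ℂ) - x) ^ 2 = ((Real.pi : ℂ) + x) ^ 2 - 2 * 2 * ((Real.pi : ℂ) * x) := by
      ring
    rw [e]
    exact (h1.pow 2).sub ((alg_two.mul alg_two).mul h2)
  have h4 := alg_sq h3
  apply pi_tr
  have e : (Real.pi : ℂ) = (((Real.pi : ℂ) + x) + ((Real.pi : ℂ) - x)) * 2⁻¹ := by ring
  rw [e]
  exact (h1.add h4).mul alg_two.inv

/-- not both of `π + x`, `e ^ x`, `x ≠ 0` -/
theorem not_AD {x : ℂ} (h1 : IsAlgebraic ℚ ((Real.pi : ℂ) + x))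
    (h2 : IsAlgebraic ℚ (Complex.exp x)) : False := by
  have h3 : (Real.pi : ℂ) + x ∈ LB := LB.add_mem pi_mem (LB_log h2)
  have h4 := LB_alg h3 h1
  have h5 : x = ((-Real.pi : ℝ) : ℂ) := by
    push_cast
    linear_combination h4
  rw [h5, ← Complex.ofReal_exp] at h2
  have h6 := pi_log (t := -Real.pi) (neg_ne_zero.2 Real.pi_ne_zero) (ofC h2) isAlgebraic_zero
    isAlgebraic_one isAlgebraic_one (by push_cast; ring)
  exact one_ne_zero h6.2.1

theorem mem_of_A {x : ℂ} (h1 : IsAlgebraic ℚ ((Real.pi : ℂ) + x)) : 1 * x ∈ Lt := by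
  have e : 1 * x = ((Real.pi : ℂ) + x) - Real.pi := by ring
  rw [e]
  exact Lt.sub_mem (Lt_alg h1) pi_Lt

theorem mem_of_D {x : ℂ} (h1 : IsAlgebraic ℚ (Complex.exp x)) : 1 * x ∈ Lt := by
  rw [one_mul]
  exact Lt_log h1

/-- `e ^ β`, `β ≠ 0` algebraic -/
theorem tr_exp {β : ℂ} (h : IsAlgebraic ℚ β) (h0 : β ≠ 0) : Transcendental ℚ (Complex.exp β) :=
  LW.transcendental_cexp β h h0

/-- `e ^ ρ + e ^ α` is transcendental -/
theorem tr_sum {ρ α : ℂ} (hρ : IsAlgebraic ℚ ρ) (hα : IsAlgebraic ℚ α) (hρ0 : ρ ≠ 0)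
    (hα0 : α ≠ 0) : Transcendental ℚ (Complex.exp ρ + Complex.exp α) := by
  intro h
  by_cases hρα : ρ = α
  · subst hρα
    apply tr_exp hρ hρ0
    have e : Complex.exp ρ = (Complex.exp ρ + Complex.exp ρ) * 2⁻¹ := by ring
    rw [e]
    exact h.mul alg_two.inv
  · have := LW.exp_linearIndependent_aux ρ α (-(Complex.exp ρ + Complex.exp α)) 1 1 hρ hα hρ0 hα0
      hρα h.neg isAlgebraic_one isAlgebraic_one (by ring)
    exact one_ne_zero this.2.1

/-- Gelfond and Schneider -/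
theorem gelfond {x ρ : ℂ} (hx : x ≠ 0) (hρ : IsAlgebraic ℚ ρ) (hirr : ∀ q : ℚ, (q : ℂ) ≠ ρ)
    (h1 : IsAlgebraic ℚ (Complex.exp x)) (h2 : IsAlgebraic ℚ (Complex.exp (ρ * x))) : False := by
  have hω : LinearIndependent ℚ ![x, ρ * x] := by
    rw [LinearIndependent.pair_iff]
    intro a b hab
    rw [Rat.smul_def, Rat.smul_def] at hab
    have h3 : (a : ℂ) + b * ρ = 0 := by
      have : ((a : ℂ) + b * ρ) * x = 0 := by linear_combination hab
      exact (mul_eq_zero.1 this).resolve_right hx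
    have hb : b = 0 := by
      by_contra hb
      apply hirr (-a / b)
      have hb' : (b : ℂ) ≠ 0 := by exact_mod_cast hb
      push_cast
      field_simp
      linear_combination -h3
    subst hb
    refine ⟨?_, rfl⟩
    have : (a : ℂ) = 0 := by simpa using h3
    exact_mod_cast this
  have := Pool.Agent.H297R2.baker_inhom ![x, ρ * x] (by
    intro i
    fin_cases i
    · exact h1
    · exact h2) hω 0 isAlgebraic_zero ![ρ, -1] (by
    intro i
    fin_cases i
    · exact hρ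
    · exact isAlgebraic_one.neg) (by
    rw [Fin.sum_univ_two]
    simp)
  have h3 := this.2 1
  simp at h3

theorem log_pi_ne : ((Real.log Real.pi : ℝ) : ℂ) ≠ 0 := by
  have : Real.log Real.pi ≠ 0 := (Real.log_pos (by linarith [Real.pi_gt_three])).ne'
  exact_mod_cast this

theorem exp_log_pi : Complex.exp ((Real.log Real.pi : ℝ) : ℂ) = Real.pi := by
  rw [← Complex.ofReal_exp, Real.exp_log Real.pi_pos]

theorem pi_cpow (x : ℂ) : (Real.pi : ℂ) ^ x = Complex.exp ((Real.log Real.pi : ℝ) * x) := by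
  rw [Complex.cpow_def_of_ne_zero pi_ne, Complex.ofReal_log Real.pi_pos.le]

/-- the four numbers -/
noncomputable def four (α : ℂ) : Fin 4 → ℂ :=
  ![(Real.pi : ℂ) + Complex.exp α, Real.pi * Complex.exp α, (Real.pi : ℂ) ^ Complex.exp α,
    Complex.exp (Complex.exp α)]

/-- the three numbers without the power of `π` -/
noncomputable def trio (α : ℂ) : Fin 3 → ℂ :=
  ![(Real.pi : ℂ) + Complex.exp α, Real.pi * Complex.exp α, Complex.exp (Complex.exp α)]

theorem exists_all_but {n : ℕ} [NeZero n] (v : Fin n → ℂ)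
    (h : ∀ i j, i < j → IsAlgebraic ℚ (v i) → ¬ IsAlgebraic ℚ (v j)) :
    ∃ i, ∀ j, j ≠ i → Transcendental ℚ (v j) := by
  by_cases h1 : ∃ i, IsAlgebraic ℚ (v i)
  · obtain ⟨i, hi⟩ := h1
    refine ⟨i, fun j hj hjj => ?_⟩
    rcases lt_or_gt_of_ne hj with h2 | h2
    · exact h j i h2 hjj hi
    · exact h i j h2 hi hjj
  · push Not at h1
    exact ⟨0, fun j _ => h1 j⟩

theorem trio_main : ∃ a : ℝ, ∀ α : ℂ, IsAlgebraic ℚ α → α ≠ a →
    ∃ i, ∀ j, j ≠ i → Transcendental ℚ (trio α j) := by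
  have h1 : Ind ((1 : ℝ) : ℂ) (Real.pi : ℂ) := by
    rw [Complex.ofReal_one]
    exact ind_one_pi
  obtain ⟨a, ha⟩ := real_exception h1 (by rw [Complex.ofReal_one]; exact Lt_one) pi_Lt
  refine ⟨a, fun α hα hαa => exists_all_but _ ?_⟩
  intro i j hij hi hj
  fin_cases i <;> fin_cases j <;> simp [trio] at hi hj hij
  · exact not_AB hi hj
  · exact not_AD hi hj
  · by_cases h0 : α = 0
    · rw [h0, Complex.exp_zero, mul_one] at hi
      exact pi_tr hi
    · exact hαa (ha α hα h0 (by rw [Complex.ofReal_one]; exact mem_of_D hj) (Lt_alg hi))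

theorem four_main (hlog : Irrational (Real.log Real.pi)) : ∃ S : Finset ℂ, S.card ≤ 5 ∧
    ∀ α : ℂ, IsAlgebraic ℚ α → α ∉ S → ∃ i, ∀ j, j ≠ i → Transcendental ℚ (four α j) := by
  classical
  obtain ⟨a, ha⟩ := at_most_one ind_one_pi Lt_one pi_Lt
  -- `1` and `log π`
  have hS2 : ∃ S : Finset ℂ, S.card ≤ 2 ∧ ∀ α, IsAlgebraic ℚ α → α ≠ 0 → α ∉ S →
      (IsAlgebraic ℚ ((Real.pi : ℂ) + Complex.exp α) ∨
        IsAlgebraic ℚ (Complex.exp (Complex.exp α))) →
      ¬ IsAlgebraic ℚ ((Real.pi : ℂ) ^ Complex.exp α) := by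
    by_cases hρ : IsAlgebraic ℚ ((Real.log Real.pi : ℝ) : ℂ)
    · refine ⟨∅, by simp, fun α hα h0 _ h1 h2 => ?_⟩
      rcases h1 with h1 | h1
      · have := tr_sum hρ hα log_pi_ne h0
        rw [exp_log_pi] at this
        exact this h1
      · rw [pi_cpow] at h2
        refine gelfond (Complex.exp_ne_zero α) hρ ?_ h1 h2
        intro q hq
        apply hlog
        refine ⟨q, ?_⟩
        exact_mod_cast hq
    · obtain ⟨S, h1, h2⟩ := at_most_two (ind_of_tr hρ)
      refine ⟨S, h1, fun α hα _ hS h3 h4 => hS (h2 α hα ?_ ?_)⟩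
      · rcases h3 with h3 | h3
        · exact mem_of_A h3
        · exact mem_of_D h3
      · rw [pi_cpow] at h4
        exact Lt_log h4
  -- `π` and `log π`
  have hS3 : ∃ S : Finset ℂ, S.card ≤ 2 ∧ ∀ α, IsAlgebraic ℚ α → α ∉ S →
      IsAlgebraic ℚ ((Real.pi : ℂ) * Complex.exp α) →
      ¬ IsAlgebraic ℚ ((Real.pi : ℂ) ^ Complex.exp α) := by
    rcases ind_pi_or (t := ((Real.log Real.pi : ℝ) : ℂ)) with h | ⟨ρ, hρ, hρe⟩
    · obtain ⟨S, h1, h2⟩ := at_most_two h
      refine ⟨S, h1, fun α hα hS h3 h4 => hS (h2 α hα (Lt_alg h3) ?_)⟩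
      rw [pi_cpow] at h4
      exact Lt_log h4
    · refine ⟨∅, by simp, fun α _ _ h3 h4 => ?_⟩
      rw [pi_cpow, hρe, mul_assoc] at h4
      refine tr_exp (hρ.mul h3) ?_ h4
      refine mul_ne_zero ?_ (mul_ne_zero pi_ne (Complex.exp_ne_zero α))
      rintro rfl
      rw [zero_mul] at hρe
      exact log_pi_ne hρe
  obtain ⟨S2, hc2, h2⟩ := hS2
  obtain ⟨S3, hc3, h3⟩ := hS3
  refine ⟨{a} ∪ S2 ∪ S3, ?_, ?_⟩
  · have e1 := Finset.card_union_le ({a} ∪ S2) S3
    have e2 := Finset.card_union_le {a} S2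
    rw [Finset.card_singleton] at e2
    omega
  · intro α hα hαS
    rw [Finset.mem_union, Finset.mem_union, Finset.mem_singleton] at hαS
    push Not at hαS
    obtain ⟨⟨hαa, hα2⟩, hα3⟩ := hαS
    by_cases h0 : α = 0
    · subst h0
      refine ⟨0, fun j hj => ?_⟩
      fin_cases j
      · exact absurd rfl hj
      · simpa [four] using pi_tr
      · simpa [four] using pi_tr
      · simpa [four] using LW.transcendental_exp_one_complex
    · apply exists_all_but
      intro i j hij hi hj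
      fin_cases i <;> fin_cases j <;> simp [four] at hi hj hij
      · exact not_AB hi hj
      · exact h2 α hα h0 hα2 (Or.inl hi) hj
      · exact not_AD hi hj
      · exact h3 α hα hα3 hi hj
      · exact hαa (ha α hα h0 (mem_of_D hj) (Lt_alg hi))
      · exact h2 α hα h0 hα2 (Or.inr hj) hi

theorem rational_case (hlog : ¬ Irrational (Real.log Real.pi)) (α : ℂ) (hα : IsAlgebraic ℚ α)
    (h0 : α ≠ 0) (h1 : α ≠ -((Real.log Real.pi : ℝ) : ℂ)) :
    Transcendental ℚ ((Real.pi : ℂ) + Complex.exp α) ∧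
      Transcendental ℚ ((Real.pi : ℂ) * Complex.exp α) := by
  have hρ : IsAlgebraic ℚ ((Real.log Real.pi : ℝ) : ℂ) := by
    unfold Irrational at hlog
    push Not at hlog
    obtain ⟨q, hq⟩ := hlog
    rw [← hq]
    have := isAlgebraic_algebraMap (R := ℚ) (A := ℂ) q
    simpa using this
  constructor
  · rw [← exp_log_pi]
    exact tr_sum hρ hα log_pi_ne h0
  · rw [← exp_log_pi, ← Complex.exp_add]
    refine tr_exp (hρ.add hα) ?_
    intro h2
    apply h1
    linear_combination h2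

end Pool.Agent.TH293.E5
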